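import Pool.Agent.H39.KZ.Main

/-!
# The module Koszulity conjecture for `J_𝕂(2)` is false

For every algebraically closed field `k` of characteristic zero, `𝕂 = k(x, y)` and `p = 2`, the
homology `H_{3,4}(Λ(𝕂ˣ/(𝕂ˣ)²), J_𝕂(2))` is nonzero.  In particular it is not true that `J_𝕂(2)` is a
Koszul module for every prime `p` and every field `𝕂` containing a primitive `p`-th root of unity
(and a square root of `-1` if `p = 2`).  The definitions are in `Pool/Agent/H39/KZ/Stmt.lean`.
-/

set_option autoImplicit false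

namespace Pool.Agent.Results.MP_dc4b79_al.ModuleKoszulityFails

open H39.KZS

theorem result :
    (∀ (k : Type) [Field k] [IsAlgClosed k] [CharZero k],
      ∃ h : Good 2 (RatFunc (RatFunc k)), ¬ JHZero h 3 4) ∧
    ¬ ∀ (p : ℕ) [Fact p.Prime] (K : Type) [Field K] (h : Good p K), JKoszul h := by
  have h1 : ∀ (k : Type) [Field k] [IsAlgClosed k] [CharZero k],
      ∃ h : Good 2 (RatFunc (RatFunc k)), ¬ JHZero h 3 4 :=
    fun k _ _ _ => ⟨H39.KZ.good_two k, fun hz =>
      H39.KZ.main_vanish k (H39.KZ.good_two k) (H39.KZ.conv _ hz)⟩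
  refine ⟨h1, fun hall => ?_⟩
  obtain ⟨h, hv⟩ := h1 ℂ
  exact hv (hall 2 (RatFunc (RatFunc ℂ)) h 3 4 (by norm_num))

end Pool.Agent.Results.MP_dc4b79_al.ModuleKoszulityFails
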